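import Pool.Agent.Run7.h519.FL.Stm

/-!
# Kalai's flag conjecture (project of helper519), piece P5: asymptotics (helper711)
-/

set_option autoImplicit false

noncomputable section

open MeasureTheory Filter Topology Set
open scoped BigOperators

namespace Run7.h711.FL

open Run7.h519.FL

/-! ### the integrals of the powers of the sine -/

theorem sin_cont (N : ℕ) : Continuous fun t : ℝ => Real.sin t ^ (2 * N + 1) :=
  Real.continuous_sin.pow _

theorem dN_nonneg (N : ℕ) {s : ℝ} (h0 : 0 ≤ s) (h1 : s ≤ Real.pi / 2) : 0 ≤ dN N s := by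
  refine intervalIntegral.integral_nonneg h0 fun t ht => pow_nonneg ?_ _
  exact Real.sin_nonneg_of_nonneg_of_le_pi ht.1 (by linarith [ht.2, Real.pi_pos])

theorem dN_le (N : ℕ) {s : ℝ} (h0 : 0 ≤ s) (h1 : s ≤ Real.pi / 2) :
    dN N s ≤ s * Real.sin s ^ (2 * N + 1) := by
  have h2 : dN N s ≤ ∫ t in (0 : ℝ)..s, Real.sin s ^ (2 * N + 1) := by
    refine intervalIntegral.integral_mono_on h0 ((sin_cont N).intervalIntegrable _ _)
      (continuous_const.intervalIntegrable _ _) fun t ht => ?_
    refine pow_le_pow_left₀ (Real.sin_nonneg_of_nonneg_of_le_pi ht.1 (by linarith [ht.2, Real.pi_pos])) ?_ _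
    exact Real.sin_le_sin_of_le_of_le_pi_div_two (by linarith [ht.1, Real.pi_pos]) h1 ht.2
  rw [intervalIntegral.integral_const, smul_eq_mul, sub_zero] at h2
  exact h2

theorem dN_ge (N : ℕ) {m s : ℝ} (h0 : 0 ≤ m) (hm : m ≤ s) (h1 : s ≤ Real.pi / 2) :
    (s - m) * Real.sin m ^ (2 * N + 1) ≤ dN N s := by
  have h2 : ∫ t in m..s, Real.sin m ^ (2 * N + 1) ≤ ∫ t in m..s, Real.sin t ^ (2 * N + 1) := by
    refine intervalIntegral.integral_mono_on hm (continuous_const.intervalIntegrable _ _)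
      ((sin_cont N).intervalIntegrable _ _) fun t ht => ?_
    refine pow_le_pow_left₀ (Real.sin_nonneg_of_nonneg_of_le_pi h0 (by linarith [Real.pi_pos])) ?_ _
    exact Real.sin_le_sin_of_le_of_le_pi_div_two (by linarith [Real.pi_pos]) (by linarith [ht.2]) ht.1
  rw [intervalIntegral.integral_const, smul_eq_mul] at h2
  have h3 : dN N s = dN N m + ∫ t in m..s, Real.sin t ^ (2 * N + 1) := by
    unfold dN
    rw [intervalIntegral.integral_add_adjacent_intervals ((sin_cont N).intervalIntegrable _ _)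
      ((sin_cont N).intervalIntegrable _ _)]
  have h4 := dN_nonneg N h0 (hm.trans h1)
  linarith

theorem ratio {s s' : ℝ} (h0 : 0 < s) (h1 : s < s') (h2 : s' ≤ Real.pi / 2) :
    Tendsto (fun N => dN N s / dN N s') atTop (𝓝 0) := by
  set m := (s + s') / 2 with hm
  have hsm : s < m := by rw [hm]; linarith
  have hms : m < s' := by rw [hm]; linarith
  have hs1 : 0 < Real.sin s := Real.sin_pos_of_pos_of_lt_pi h0 (by linarith [Real.pi_pos])
  have hs2 : Real.sin s < Real.sin m :=
    Real.sin_lt_sin_of_lt_of_le_pi_div_two (by linarith [Real.pi_pos]) (by linarith) hsm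
  have hs3 : 0 < Real.sin m := hs1.trans hs2
  set q := Real.sin s / Real.sin m with hq
  have hq0 : 0 ≤ q := (div_pos hs1 hs3).le
  have hq1 : q < 1 := (div_lt_one hs3).2 hs2
  have hlim : Tendsto (fun N : ℕ => s / (s' - m) * q ^ (2 * N + 1)) atTop (𝓝 0) := by
    have h3 : Tendsto (fun N : ℕ => q ^ (2 * N + 1)) atTop (𝓝 0) := by
      refine (tendsto_pow_atTop_nhds_zero_of_lt_one hq0 hq1).comp ?_
      exact tendsto_atTop_mono (fun N => (by omega : N ≤ 2 * N + 1)) tendsto_id
    simpa using h3.const_mul (s / (s' - m))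
  refine squeeze_zero (fun N => ?_) (fun N => ?_) hlim
  · exact div_nonneg (dN_nonneg N h0.le (by linarith)) (dN_nonneg N (by linarith) h2)
  · have h3 := dN_le N h0.le (by linarith : s ≤ Real.pi / 2)
    have h4 := dN_ge N (by linarith : (0 : ℝ) ≤ m) hms.le h2
    have h5 : 0 < (s' - m) * Real.sin m ^ (2 * N + 1) := mul_pos (by linarith) (pow_pos hs3 _)
    calc dN N s / dN N s' ≤ (s * Real.sin s ^ (2 * N + 1)) / ((s' - m) * Real.sin m ^ (2 * N + 1)) := by
          apply div_le_div₀ (by positivity) h3 h5 h4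
      _ = s / (s' - m) * q ^ (2 * N + 1) := by
          rw [hq, div_pow, mul_div_mul_comm]

theorem xN_zero (N : ℕ) : xN N 0 = dN N (Real.pi / 2) := rfl

/-! ### a recursive inequality -/

theorem tend {s e : ℕ → ℝ} {q : ℝ} (hq0 : 0 ≤ q) (hq1 : q < 1) (hs : ∀ N, 0 ≤ s N)
    (h : ∀ᶠ N in atTop, s (N + 1) ≤ q * s N + e N) (he : Tendsto e atTop (𝓝 0)) :
    Tendsto s atTop (𝓝 0) := by
  rw [Metric.tendsto_atTop]
  intro ε hε
  have h1 : ∀ᶠ N in atTop, e N < (1 - q) * (ε / 2) :=
    he.eventually_lt_const (mul_pos (by linarith) (by linarith))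
  obtain ⟨N1, hN1⟩ := eventually_atTop.1 (h.and h1)
  have h2 : ∀ k : ℕ, s (N1 + k) ≤ q ^ k * s N1 + ε / 2 := by
    intro k
    induction k with
    | zero =>
      rw [add_zero, pow_zero, one_mul]
      linarith
    | succ k ih =>
      obtain ⟨h3, h4⟩ := hN1 (N1 + k) (by omega)
      have h5 : q * s (N1 + k) ≤ q * (q ^ k * s N1 + ε / 2) := mul_le_mul_of_nonneg_left ih hq0
      rw [← add_assoc]
      calc s (N1 + k + 1) ≤ q * (q ^ k * s N1 + ε / 2) + (1 - q) * (ε / 2) := by linarith
        _ = q ^ (k + 1) * s N1 + ε / 2 := by ring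
  have h3 : Tendsto (fun k : ℕ => q ^ k * s N1) atTop (𝓝 0) := by
    simpa using (tendsto_pow_atTop_nhds_zero_of_lt_one hq0 hq1).mul_const (s N1)
  obtain ⟨K, hK⟩ := eventually_atTop.1 (h3.eventually_lt_const (show (0 : ℝ) < ε / 2 by linarith))
  refine ⟨N1 + K, fun n hn => ?_⟩
  obtain ⟨k, rfl⟩ := Nat.exists_eq_add_of_le (show N1 ≤ n by omega)
  have h4 := hK k (by omega)
  have h5 := h2 k
  rw [Real.dist_0_eq_abs, abs_of_nonneg (hs _)]
  linarith

/-! ### the polynomials `BB` -/

theorem BB_cont (N : ℕ) : Continuous (BB N) := by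
  induction N with
  | zero => exact continuous_const
  | succ N ih =>
    show Continuous fun t : ℝ => t * BB N t + uu N / 2
    exact (continuous_id.mul ih).add continuous_const

/-- the recursive bound -/
def sN (T : ℝ) : ℕ → ℝ
  | 0 => 2 + 1 / (1 - T)
  | N + 1 => (2 * N + 4) / (2 * N + 3) * T * sN T N + 1 / (2 * N + 3) * (1 / (1 - T))

theorem sN_nonneg {T : ℝ} (h0 : 0 ≤ T) (h1 : T < 1) (N : ℕ) : 0 ≤ sN T N := by
  have h2 : 0 < 1 - T := by linarith
  induction N with
  | zero =>
    show 0 ≤ 2 + 1 / (1 - T)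
    positivity
  | succ N ih =>
    show 0 ≤ (2 * (N : ℝ) + 4) / (2 * N + 3) * T * sN T N + 1 / (2 * N + 3) * (1 / (1 - T))
    positivity

theorem sN_tendsto {T : ℝ} (h0 : 0 ≤ T) (h1 : T < 1) : Tendsto (sN T) atTop (𝓝 0) := by
  have h2 : 0 < 1 - T := by linarith
  have hinv : Tendsto (fun N : ℕ => 1 / (2 * (N : ℝ) + 3)) atTop (𝓝 0) := by
    refine squeeze_zero (fun N => by positivity) (fun N => ?_) tendsto_one_div_add_atTop_nhds_zero_nat
    apply one_div_le_one_div_of_le (by positivity)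
    have : (0 : ℝ) ≤ N := Nat.cast_nonneg N
    linarith
  have he : Tendsto (fun N : ℕ => 1 / (2 * (N : ℝ) + 3) * (1 / (1 - T))) atTop (𝓝 0) := by
    simpa using hinv.mul_const (1 / (1 - T))
  refine tend (q := (1 + T) / 2) (by linarith) (by linarith) (sN_nonneg h0 h1) ?_ he
  have h3 : Tendsto (fun N : ℕ => T + T * (1 / (2 * (N : ℝ) + 3))) atTop (𝓝 T) := by
    simpa using (hinv.const_mul T).const_add T
  filter_upwards [h3.eventually_lt_const (show T < (1 + T) / 2 by linarith)] with N hN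
  have h4 := sN_nonneg h0 h1 N
  show (2 * (N : ℝ) + 4) / (2 * N + 3) * T * sN T N + 1 / (2 * N + 3) * (1 / (1 - T)) ≤ _
  have h5 : (2 * (N : ℝ) + 4) / (2 * N + 3) * T = T + T * (1 / (2 * (N : ℝ) + 3)) := by
    have : (2 * (N : ℝ) + 3) ≠ 0 := by positivity
    field_simp
    ring
  rw [h5]
  have h6 := mul_le_mul_of_nonneg_right hN.le h4
  linarith

theorem uu_zero : uu 0 = 1 := by
  show (U 0).coeff 0 = 1
  show (1 : Polynomial ℝ).coeff 0 = 1
  simp

theorem BB_bound (h2 : S_P2) {t T : ℝ} (h0 : 0 ≤ t) (ht : t ≤ T) (hT : T < 1) (N : ℕ) :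
    |BB N t / (uu N / 2) - 1 / (1 - t)| ≤ sN T N := by
  have ht1 : 0 < 1 - t := by linarith
  have hT1 : 0 < 1 - T := by linarith
  have hle : 1 / (1 - t) ≤ 1 / (1 - T) := one_div_le_one_div_of_le hT1 (by linarith)
  have hpos : 0 < 1 / (1 - t) := by positivity
  induction N with
  | zero =>
    rw [uu_zero]
    show |(1 : ℝ) / (1 / 2) - 1 / (1 - t)| ≤ 2 + 1 / (1 - T)
    rw [abs_le]
    constructor <;> linarith
  | succ N ih =>
    obtain ⟨hu, hu'⟩ := h2 N
    obtain ⟨hv, -⟩ := h2 (N + 1)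
    set b := BB N t / (uu N / 2) with hb
    have hBB : BB N t = b * (uu N / 2) := by
      rw [hb, div_mul_cancel₀]
      positivity
    have hρ : uu N / uu (N + 1) = (2 * N + 4) / (2 * N + 3) := by
      rw [div_eq_div_iff hv.ne' (by positivity)]
      rw [hu']
      ring
    have hstep : BB (N + 1) t / (uu (N + 1) / 2) - 1 / (1 - t) =
        (2 * N + 4) / (2 * N + 3) * t * (b - 1 / (1 - t)) + 1 / (2 * N + 3) * (1 / (1 - t)) := by
      have h3 : BB (N + 1) t / (uu (N + 1) / 2) = uu N / uu (N + 1) * (t * b + 1) := by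
        show (t * BB N t + uu N / 2) / (uu (N + 1) / 2) = _
        rw [hBB]
        field_simp
      rw [h3, hρ]
      have h4 : (2 * (N : ℝ) + 3) ≠ 0 := by positivity
      have h5 : (1 - t) ≠ 0 := ht1.ne'
      field_simp
      ring
    rw [hstep]
    show _ ≤ (2 * (N : ℝ) + 4) / (2 * N + 3) * T * sN T N + 1 / (2 * N + 3) * (1 / (1 - T))
    refine (abs_add_le _ _).trans (add_le_add ?_ ?_)
    · rw [abs_mul, abs_of_nonneg (by positivity : (0 : ℝ) ≤ (2 * N + 4) / (2 * N + 3) * t)]
      exact mul_le_mul (mul_le_mul_of_nonneg_left ht (by positivity)) ih (abs_nonneg _)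
        (mul_nonneg (by positivity) (h0.trans ht))
    · rw [abs_of_nonneg (by positivity)]
      exact mul_le_mul_of_nonneg_left hle (by positivity)

theorem P5 (h2 : S_P2) : S_P5 := by
  refine ⟨fun s s' h0 h1 h3 => ratio h0 h1 h3.le, fun s h0 h1 => ?_, fun θ h0 h1 => ?_⟩
  · simp_rw [xN_zero]
    exact ratio h0 h1 le_rfl
  · set T := Real.sin θ ^ 2 with hT
    have hcos : 0 < Real.cos θ := Real.cos_pos_of_mem_Ioo ⟨by linarith, h1⟩
    have hT1 : T < 1 := by
      have := Real.sin_sq_add_cos_sq θ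
      have h3 : 0 < Real.cos θ ^ 2 := by positivity
      rw [hT]
      linarith
    have hT0 : 0 ≤ T := sq_nonneg _
    have key : ∀ N, |yN N θ / (uu N / 2) - YY θ| ≤ sN T N * |θ - 0| := by
      intro N
      obtain ⟨hu, -⟩ := h2 N
      have hmem : ∀ t ∈ uIcc 0 θ, |t| ≤ |θ| := by
        intro t ht
        rcases le_total 0 θ with h | h
        · rw [uIcc_of_le h] at ht
          rw [abs_of_nonneg ht.1, abs_of_nonneg h]
          exact ht.2
        · rw [uIcc_of_ge h] at ht
          rw [abs_of_nonpos ht.2, abs_of_nonpos h]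
          linarith [ht.1]
      have habs : |θ| < Real.pi / 2 := abs_lt.2 ⟨h0, h1⟩
      have hc : ∀ t ∈ uIcc 0 θ, 0 < Real.cos t := by
        intro t ht
        obtain ⟨h4, h5⟩ := abs_lt.1 ((hmem t ht).trans_lt habs)
        exact Real.cos_pos_of_mem_Ioo ⟨by linarith, h5⟩
      have hs : ∀ t ∈ uIcc 0 θ, Real.sin t ^ 2 ≤ T := by
        intro t ht
        have h4 : Real.cos θ ≤ Real.cos t := by
          rw [← Real.cos_abs θ, ← Real.cos_abs t]
          exact Real.cos_le_cos_of_nonneg_of_le_pi (abs_nonneg _) (by linarith [Real.pi_pos]) (hmem t ht)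
        have h5 : Real.cos θ ^ 2 ≤ Real.cos t ^ 2 := pow_le_pow_left₀ hcos.le h4 2
        have h6 := Real.sin_sq_add_cos_sq θ
        have h7 := Real.sin_sq_add_cos_sq t
        rw [hT]
        linarith
      have i1 : IntervalIntegrable (fun t => Real.cos t * BB N (Real.sin t ^ 2)) volume 0 θ :=
        (Real.continuous_cos.mul ((BB_cont N).comp (Real.continuous_sin.pow 2))).intervalIntegrable _ _
      have i2 : IntervalIntegrable (fun t => 1 / Real.cos t) volume 0 θ := by
        apply ContinuousOn.intervalIntegrable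
        exact continuousOn_const.div Real.continuous_cos.continuousOn fun t ht => (hc t ht).ne'
      have e1 : yN N θ / (uu N / 2) - YY θ =
          ∫ t in (0 : ℝ)..θ, (Real.cos t * BB N (Real.sin t ^ 2) / (uu N / 2) - 1 / Real.cos t) := by
        rw [intervalIntegral.integral_sub (i1.div_const _) i2, intervalIntegral.integral_div]
        rfl
      rw [e1, ← Real.norm_eq_abs]
      refine intervalIntegral.norm_integral_le_of_norm_le_const fun t ht => ?_
      have ht' : t ∈ uIcc 0 θ := uIoc_subset_uIcc ht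
      have hct := hc t ht'
      have h8 := BB_bound h2 (sq_nonneg (Real.sin t)) (hs t ht') hT1 N
      have h9 : Real.cos t * BB N (Real.sin t ^ 2) / (uu N / 2) - 1 / Real.cos t =
          Real.cos t * (BB N (Real.sin t ^ 2) / (uu N / 2) - 1 / (1 - Real.sin t ^ 2)) := by
        have h10 : 1 - Real.sin t ^ 2 = Real.cos t ^ 2 := by
          have := Real.sin_sq_add_cos_sq t
          linarith
        rw [h10, mul_sub, mul_div_assoc]
        congr 1
        field_simp
      rw [h9, norm_mul, Real.norm_eq_abs, Real.norm_eq_abs, abs_of_pos hct]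
      calc Real.cos t * |BB N (Real.sin t ^ 2) / (uu N / 2) - 1 / (1 - Real.sin t ^ 2)|
          ≤ 1 * sN T N := mul_le_mul (Real.cos_le_one t) h8 (abs_nonneg _) zero_le_one
        _ = sN T N := one_mul _
    rw [tendsto_iff_norm_sub_tendsto_zero]
    refine squeeze_zero (fun N => norm_nonneg _) (fun N => ?_)
      (by simpa using (sN_tendsto hT0 hT1).mul_const |θ - 0|)
    rw [Real.norm_eq_abs]
    have := key N
    rwa [sub_zero] at this

end Run7.h711.FL
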